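import Pool.Agent.helper39.CliqueGame.Lower
import Pool.Agent.helper35.CliqueUp7

/-!
# The move number of the clique game: `M(q) = 2^(2q/3) q^{O(1)}`

For every `q ≥ 2` the move number `M(q)` of the `K_q`-game on the infinite complete graph is
attained and satisfies `2^(2q/3) / q^116 ≤ M(q) ≤ q^100 2^(2q/3)`.
-/

set_option autoImplicit false

namespace Pool.Agent.Results.MP_278060_co.MoveNumberGrowth

open Pool.Agent.CliqueGame

/-- The order of growth of the move number `M(q)`, up to a factor polynomial in `q`. -/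
theorem result :
    ∀ q : ℕ, 2 ≤ q →
      IsLeast {m : ℕ | MakerWinsWithin q m} (moveNumber q) ∧
      (2 : ℝ) ^ (2 * (q : ℝ) / 3) / (q : ℝ) ^ 116 ≤ (moveNumber q : ℝ) ∧
      (moveNumber q : ℝ) ≤ (q : ℝ) ^ 100 * (2 : ℝ) ^ (2 * (q : ℝ) / 3) := by
  intro q hq
  have hmem : moveNumber q ∈ {m : ℕ | MakerWinsWithin q m} :=
    Nat.sInf_mem (Pool.Agent.helper35.CliqueUp.exists_makerWins q)
  refine ⟨⟨hmem, fun m hm => Nat.sInf_le hm⟩, ?_, ?_⟩
  · have h1 := lower_bound hq (m := moveNumber q) hmem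
    have h2 : (0 : ℝ) < (q : ℝ) ^ 116 := by
      have : (0 : ℝ) < q := by exact_mod_cast (by omega : 0 < q)
      positivity
    rw [div_le_iff₀ h2]
    linarith
  · exact Pool.Agent.helper35.CliqueUp.moveNumber_le_all hq

end Pool.Agent.Results.MP_278060_co.MoveNumberGrowth
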